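import Pool.Agent.Helper68.DS.Goals2

set_option autoImplicit false

/-!
# MP_52cd29_ag: the dimension of the limit space
-/

namespace Pool.Agent.Helper34.DS

open Pool.Agent.Helper68.DS MvPolynomial

theorem eval_lf (c p : Fin 3 → ℂ) : eval p (lf c) = c ⬝ᵥ p := by
  simp [lf, dotProduct]

theorem dot_cr_left (a b : Fin 3 → ℂ) : a ⬝ᵥ cr a b = 0 := by
  simp [cr, dotProduct, Fin.sum_univ_three]
  ring

theorem dot_cr_right (a b : Fin 3 → ℂ) : b ⬝ᵥ cr a b = 0 := by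
  simp [cr, dotProduct, Fin.sum_univ_three]
  ring

theorem eval_Lam {k : ℕ} (lam : Fin k → Fin 3 → ℂ) (i j l : Fin k) (hij : i ≠ j) :
    eval (cr (lam i) (lam j)) (Lam lam l) = 0 := by
  unfold Lam
  rw [map_prod]
  by_cases h : l = i
  · apply Finset.prod_eq_zero (i := j)
    · rw [Finset.mem_erase]
      exact ⟨fun h' => hij (h ▸ h'.symm), Finset.mem_univ _⟩
    · rw [eval_lf, dot_cr_right]
  · apply Finset.prod_eq_zero (i := i)
    · rw [Finset.mem_erase]
      exact ⟨fun h' => h h'.symm, Finset.mem_univ _⟩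
    · rw [eval_lf, dot_cr_left]

theorem eval_Lam2_zero {k : ℕ} (lam : Fin k → Fin 3 → ℂ) (i j l m : Fin k)
    (h : (i ≠ l ∧ i ≠ m) ∨ (j ≠ l ∧ j ≠ m)) :
    eval (cr (lam i) (lam j)) (Lam2 lam l m) = 0 := by
  unfold Lam2
  rw [map_prod]
  rcases h with h | h
  · apply Finset.prod_eq_zero (i := i)
    · rw [Finset.mem_erase, Finset.mem_erase]
      exact ⟨h.2, h.1, Finset.mem_univ _⟩
    · rw [eval_lf, dot_cr_left]
  · apply Finset.prod_eq_zero (i := j)
    · rw [Finset.mem_erase, Finset.mem_erase]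
      exact ⟨h.2, h.1, Finset.mem_univ _⟩
    · rw [eval_lf, dot_cr_right]

theorem eval_Lam2_ne {k : ℕ} (lam : Fin k → Fin 3 → ℂ) (hG : Gen lam) (i j : Fin k)
    (hij : i ≠ j) : eval (cr (lam i) (lam j)) (Lam2 lam i j) ≠ 0 := by
  unfold Lam2
  rw [map_prod, Finset.prod_ne_zero_iff]
  intro l hl
  rw [Finset.mem_erase, Finset.mem_erase] at hl
  rw [eval_lf]
  exact hG.2 l i j hl.2.1 hij hl.1

theorem Lam2_comm {k : ℕ} (lam : Fin k → Fin 3 → ℂ) (i j : Fin k) :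
    Lam2 lam j i = Lam2 lam i j := by
  unfold Lam2
  rw [Finset.erase_right_comm]

theorem eval_gg_other {k : ℕ} (lam : Fin k → Fin 3 → ℂ) (n : Fin k → Fin k → Fin 3 → ℂ)
    (i j l : Fin k) (hij : i ≠ j) (hi : l ≠ i) (hj : l ≠ j) :
    eval (cr (lam i) (lam j)) (gg lam n l) = 0 := by
  unfold gg
  rw [map_sum]
  apply Finset.sum_eq_zero
  intro m _
  rw [map_mul]
  have h : (i ≠ l ∧ i ≠ m) ∨ (j ≠ l ∧ j ≠ m) := by
    by_cases h : i = m
    · right; exact ⟨fun h' => hj h'.symm, fun h' => hij (h.trans h'.symm)⟩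
    · left; exact ⟨fun h' => hi h'.symm, h⟩
  rw [eval_Lam2_zero lam i j l m h, mul_zero]

theorem eval_gg_left {k : ℕ} (lam : Fin k → Fin 3 → ℂ) (n : Fin k → Fin k → Fin 3 → ℂ)
    (i j : Fin k) (hij : i ≠ j) :
    eval (cr (lam i) (lam j)) (gg lam n i) =
      (n i j ⬝ᵥ cr (lam i) (lam j)) * eval (cr (lam i) (lam j)) (Lam2 lam i j) := by
  unfold gg
  rw [map_sum, Finset.sum_eq_single j]
  · rw [map_mul, eval_lf]
  · intro m _ hm
    rw [map_mul, eval_Lam2_zero lam i j i m (Or.inr ⟨hij.symm, fun h => hm h.symm⟩), mul_zero]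
  · intro h
    exact absurd (Finset.mem_erase.mpr ⟨hij.symm, Finset.mem_univ _⟩) h

theorem eval_gg_right {k : ℕ} (lam : Fin k → Fin 3 → ℂ) (n : Fin k → Fin k → Fin 3 → ℂ)
    (i j : Fin k) (hij : i ≠ j) :
    eval (cr (lam i) (lam j)) (gg lam n j) =
      (n j i ⬝ᵥ cr (lam i) (lam j)) * eval (cr (lam i) (lam j)) (Lam2 lam i j) := by
  unfold gg
  rw [map_sum, Finset.sum_eq_single i]
  · rw [map_mul, eval_lf, Lam2_comm]
  · intro m _ hm
    rw [map_mul, eval_Lam2_zero lam i j j m (Or.inl ⟨hij, fun h => hm h.symm⟩), mul_zero]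
  · intro h
    exact absurd (Finset.mem_erase.mpr ⟨hij, Finset.mem_univ _⟩) h

/-- `ζ ↦ ∑ lf (ζ i) * gg lam n i`. -/
noncomputable def Gam {k : ℕ} (lam : Fin k → Fin 3 → ℂ) (n : Fin k → Fin k → Fin 3 → ℂ) :
    (Fin k → Fin 3 → ℂ) →ₗ[ℂ] MvPolynomial (Fin 3) ℂ where
  toFun ξ := ∑ i, lf (ξ i) * gg lam n i
  map_add' ξ η := by
    rw [← Finset.sum_add_distrib]
    refine Finset.sum_congr rfl fun i _ => ?_
    rw [← add_mul]
    congr 1
    simp only [lf, Pi.add_apply, map_add, add_mul, Finset.sum_add_distrib]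
  map_smul' c ξ := by
    simp only [RingHom.id_apply, Finset.smul_sum]
    refine Finset.sum_congr rfl fun i _ => ?_
    simp only [lf, Pi.smul_apply, smul_eq_mul, map_mul, Algebra.smul_def, algebraMap_eq,
      Finset.sum_mul, Finset.mul_sum, mul_assoc]

/-- The total map. -/
noncomputable def TM {k : ℕ} (lam : Fin k → Fin 3 → ℂ) (n : Fin k → Fin k → Fin 3 → ℂ)
    (H : Submodule ℂ (MvPolynomial (Fin 3) ℂ)) :
    ((Fin k → Fin 3 → ℂ) × (Fin k → Fin 3 → ℂ) × ↥H) →ₗ[ℂ] MvPolynomial (Fin 3) ℂ :=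
  (Theta lam).coprod ((Gam lam n).coprod (-H.subtype))

theorem TM_apply {k : ℕ} (lam : Fin k → Fin 3 → ℂ) (n : Fin k → Fin k → Fin 3 → ℂ)
    (H : Submodule ℂ (MvPolynomial (Fin 3) ℂ))
    (x : (Fin k → Fin 3 → ℂ) × (Fin k → Fin 3 → ℂ) × ↥H) :
    TM lam n H x = (∑ i, lf (x.1 i) * Lam lam i) + ((∑ i, lf (x.2.1 i) * gg lam n i) +
      -(x.2.2 : MvPolynomial (Fin 3) ℂ)) := by
  simp [TM, Theta, Gam, LinearMap.coprod_apply]

theorem lf_mul_mem {W : Submodule ℂ (MvPolynomial (Fin 3) ℂ)} (c : Fin 3 → ℂ)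
    (g : MvPolynomial (Fin 3) ℂ) (h : ∀ j, X j * g ∈ W) : lf c * g ∈ W := by
  unfold lf
  rw [Finset.sum_mul]
  refine Submodule.sum_mem _ fun j _ => ?_
  rw [mul_assoc, ← smul_eq_C_mul]
  exact W.smul_mem _ (h j)

theorem TM_range {k : ℕ} (lam : Fin k → Fin 3 → ℂ) (n : Fin k → Fin k → Fin 3 → ℂ)
    (H : Submodule ℂ (MvPolynomial (Fin 3) ℂ)) :
    LinearMap.range (TM lam n H) ≤ H ⊔ SS lam n := by
  rintro _ ⟨x, rfl⟩
  rw [TM_apply]
  refine Submodule.add_mem _ ?_ (Submodule.add_mem _ ?_ ?_)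
  · refine Submodule.sum_mem _ fun i _ => lf_mul_mem _ _ fun j => ?_
    exact Submodule.mem_sup_right (Submodule.mem_sup_left (Submodule.subset_span ⟨(j, i), rfl⟩))
  · refine Submodule.sum_mem _ fun i _ => lf_mul_mem _ _ fun j => ?_
    exact Submodule.mem_sup_right (Submodule.mem_sup_right (Submodule.subset_span ⟨(j, i), rfl⟩))
  · exact Submodule.mem_sup_left (Submodule.neg_mem _ x.2.2.2)

theorem TM_ker_eval {k : ℕ} (lam : Fin k → Fin 3 → ℂ) (n : Fin k → Fin k → Fin 3 → ℂ)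
    (hn : ∀ i j, n j i = - n i j)
    (H : Submodule ℂ (MvPolynomial (Fin 3) ℂ))
    (x : (Fin k → Fin 3 → ℂ) × (Fin k → Fin 3 → ℂ) × ↥H) (hx : TM lam n H x = 0)
    (i j : Fin k) (hij : i ≠ j) :
    eval (cr (lam i) (lam j)) (x.2.2 : MvPolynomial (Fin 3) ℂ) =
      eval (cr (lam i) (lam j)) (Lam2 lam i j) * (n i j ⬝ᵥ cr (lam i) (lam j)) *
        ((x.2.1 i - x.2.1 j) ⬝ᵥ cr (lam i) (lam j)) := by
  have h := congrArg (eval (cr (lam i) (lam j))) hx
  rw [TM_apply, map_add, map_add, map_zero, map_neg, map_sum, map_sum] at h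
  have h1 : ∑ l, eval (cr (lam i) (lam j)) (lf (x.1 l) * Lam lam l) = 0 := by
    apply Finset.sum_eq_zero
    intro l _
    rw [map_mul, eval_Lam lam i j l hij, mul_zero]
  have h2 : ∑ l, eval (cr (lam i) (lam j)) (lf (x.2.1 l) * gg lam n l) =
      eval (cr (lam i) (lam j)) (lf (x.2.1 i) * gg lam n i) +
      eval (cr (lam i) (lam j)) (lf (x.2.1 j) * gg lam n j) := by
    apply Finset.sum_eq_add_of_mem i j (Finset.mem_univ _) (Finset.mem_univ _) hij
    intro l _ hl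
    rw [map_mul, eval_gg_other lam n i j l hij hl.1 hl.2, mul_zero]
  rw [h1, h2, map_mul, map_mul, eval_gg_left lam n i j hij, eval_gg_right lam n i j hij,
    eval_lf, eval_lf, hn i j, neg_dotProduct] at h
  rw [sub_dotProduct]
  linear_combination -h

/-- Dimension of a subspace through two projections. -/
theorem finrank_le_of_proj {V W U : Type} [AddCommGroup V] [Module ℂ V] [FiniteDimensional ℂ V]
    [AddCommGroup W] [Module ℂ W] [FiniteDimensional ℂ W] [AddCommGroup U] [Module ℂ U]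
    [FiniteDimensional ℂ U] (K : Submodule ℂ V) (P : V →ₗ[ℂ] W) (Q : V →ₗ[ℂ] U)
    (A : Submodule ℂ W) (B : Submodule ℂ U) (hA : ∀ x ∈ K, P x ∈ A)
    (hB : ∀ x ∈ K, P x = 0 → Q x ∈ B) (hinj : ∀ x ∈ K, P x = 0 → Q x = 0 → x = 0) :
    Module.finrank ℂ ↥K ≤ Module.finrank ℂ ↥A + Module.finrank ℂ ↥B := by
  let P' : ↥K →ₗ[ℂ] W := P ∘ₗ K.subtype
  have h1 := LinearMap.finrank_range_add_finrank_ker P'
  have h2 : Module.finrank ℂ ↥(LinearMap.range P') ≤ Module.finrank ℂ ↥A := by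
    apply Submodule.finrank_mono
    rintro _ ⟨x, rfl⟩
    exact hA x.1 x.2
  have h3 : Module.finrank ℂ ↥(LinearMap.ker P') ≤ Module.finrank ℂ ↥B := by
    let Q' : ↥(LinearMap.ker P') →ₗ[ℂ] ↥B :=
      LinearMap.codRestrict B ((Q ∘ₗ K.subtype) ∘ₗ (LinearMap.ker P').subtype)
        (fun x => hB x.1.1 x.1.2 x.2)
    apply LinearMap.finrank_le_finrank_of_injective (f := Q')
    rw [injective_iff_map_eq_zero]
    intro x hx
    have e1 : Q x.1.1 = 0 := congrArg Subtype.val hx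
    apply Subtype.ext
    apply Subtype.ext
    exact hinj x.1.1 x.1.2 x.2 e1
  omega

theorem COUNT (h1 : BKER_stmt) (h2 : DIM_stmt) : COUNT_stmt := by
  intro k hk H hH lam hG hker Z hZ hZV n hn hn0 hn1
  have : FiniteDimensional ℂ ↥(HS 3 k) := (h2 2 k).1
  have : FiniteDimensional ℂ ↥H := Submodule.finiteDimensional_of_le hH
  have : FiniteDimensional ℂ ↥(SS lam n) := by
    have := FiniteDimensional.span_of_finite ℂ
      (Set.finite_range fun p : Fin 3 × Fin k => (X p.1 : MvPolynomial (Fin 3) ℂ) * Lam lam p.2)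
    have := FiniteDimensional.span_of_finite ℂ
      (Set.finite_range fun p : Fin 3 × Fin k => (X p.1 : MvPolynomial (Fin 3) ℂ) * gg lam n p.2)
    unfold SS
    infer_instance
  have hrange : Module.finrank ℂ ↥(LinearMap.range (TM lam n H)) ≤
      Module.finrank ℂ ↥(H ⊔ SS lam n) := Submodule.finrank_mono (TM_range lam n H)
  have hrn := LinearMap.finrank_range_add_finrank_ker (TM lam n H)
  have hdim : Module.finrank ℂ ((Fin k → Fin 3 → ℂ) × (Fin k → Fin 3 → ℂ) × ↥H) =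
      6 * k + Module.finrank ℂ ↥H := by
    rw [Module.finrank_prod, Module.finrank_prod]
    have : Module.finrank ℂ (Fin k → Fin 3 → ℂ) = 3 * k := by
      rw [Module.finrank_pi_fintype]
      simp [mul_comm]
    rw [this]
    ring
  -- the kernel
  have hker0 : ∀ x ∈ LinearMap.ker (TM lam n H), (x.2.2 : MvPolynomial (Fin 3) ℂ) = 0 := by
    intro x hx
    refine hZ _ x.2.2.2 fun i j hij hm => ?_
    rw [TM_ker_eval lam n hn H x hx i j hij, hn0 i j hij hm, zero_dotProduct, mul_zero, zero_mul]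
  have hkerζ : ∀ x ∈ LinearMap.ker (TM lam n H), x.2.1 ∈ ZV lam (∅ : Finset (Edge k)) := by
    intro x hx
    apply hZV
    intro i j hij hm
    have h := TM_ker_eval lam n hn H x hx i j hij
    rw [hker0 x hx, map_zero] at h
    have h3 := mul_ne_zero (eval_Lam2_ne lam hG i j hij) (hn1 i j hij hm)
    exact (mul_eq_zero.mp h.symm).resolve_left h3
  have hK : Module.finrank ℂ ↥(LinearMap.ker (TM lam n H)) ≤
      Module.finrank ℂ ↥(ZV lam (∅ : Finset (Edge k))) +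
      Module.finrank ℂ ↥(KH lam (⊥ : Submodule ℂ (MvPolynomial (Fin 3) ℂ))) := by
    apply finrank_le_of_proj (LinearMap.ker (TM lam n H))
      (LinearMap.fst ℂ (Fin k → Fin 3 → ℂ) ↥H ∘ₗ LinearMap.snd ℂ (Fin k → Fin 3 → ℂ)
        ((Fin k → Fin 3 → ℂ) × ↥H))
      (LinearMap.fst ℂ (Fin k → Fin 3 → ℂ) ((Fin k → Fin 3 → ℂ) × ↥H))
    · exact hkerζ
    · intro x hx hx0
      have hx0' : x.2.1 = 0 := hx0
      have hx1 : (x.2.2 : MvPolynomial (Fin 3) ℂ) = 0 := hker0 x hx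
      have hx2 : TM lam n H x = 0 := hx
      rw [TM_apply, hx0', hx1] at hx2
      show Theta lam x.1 ∈ (⊥ : Submodule ℂ (MvPolynomial (Fin 3) ℂ))
      rw [Submodule.mem_bot]
      have : (∑ i, lf ((0 : Fin k → Fin 3 → ℂ) i) * gg lam n i) = 0 := by
        apply Finset.sum_eq_zero
        intro i _
        simp [lf]
      rw [this, neg_zero, add_zero, add_zero] at hx2
      exact hx2
    · intro x hx hx0 hx1
      have hx0' : x.2.1 = 0 := hx0
      have hx1' : x.1 = 0 := hx1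
      have hx2 : x.2.2 = 0 := Subtype.ext (hker0 x hx)
      exact Prod.ext hx1' (Prod.ext hx0' hx2)
  rw [h1 k hk lam hG] at hK
  clear hn hn0 hn1 hZ hZV hker0 hkerζ
  omega

end Pool.Agent.Helper34.DS
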