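import Pool.Agent.Helper68.DS.Goals3

set_option autoImplicit false

/-!
# MP_52cd29_ag: the explicit designs, by a verified checker
-/

namespace Pool.Agent.Helper34.DS

open Pool.Agent.Helper68.DS

/-- Coefficients of an integer polynomial of degree at most 2. -/
abbrev Co : Type := ℤ × ℤ × ℤ

/-- Value of the polynomial. -/
def ev (t : Co) (q : ℕ) : ℤ := t.1 * (q : ℤ) ^ 2 + t.2.1 * (q : ℤ) + t.2.2

/-- Sum. -/
def addC (s t : Co) : Co := (s.1 + t.1, s.2.1 + t.2.1, s.2.2 + t.2.2)

theorem ev_addC (s t : Co) (q : ℕ) : ev (addC s t) q = ev s q + ev t q := by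
  simp only [ev, addC]; ring

/-- Coefficients of twice `inner (α q + c) i`. -/
def innerC (α c : ℤ) (i : ℕ) : Co :=
  if i = 1 ∨ i = 2 then (α * α, 2 * α * c + α, c * c + c) else
  if i = 3 then (α * α, 2 * α * c - α, c * c - c) else
  if i = 4 then (α * α, 2 * α * c - 3 * α, c * c - 3 * c + 2) else (0, 0, 0)

theorem inner_sound (α c i q : ℕ) (hc : 1 ≤ c) :
    ev (innerC α c i) q ≤ 2 * (Pool.Agent.Helper68.DS.inner (α * q + c) i : ℤ) := by
  have hdiv : ∀ m : ℕ, 2 ∣ m → (2 : ℤ) * ((m / 2 : ℕ) : ℤ) = (m : ℤ) := by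
    intro m hm
    have := Nat.mul_div_cancel' hm
    exact_mod_cast this
  obtain ⟨M, hM⟩ : ∃ M, α * q + c = M + 1 := ⟨α * q + c - 1, by omega⟩
  have hMz : (α : ℤ) * q + c = M + 1 := by exact_mod_cast hM
  unfold innerC Pool.Agent.Helper68.DS.inner
  rw [hM]
  split_ifs with h1 h2 h3
  · rw [hdiv _ (by
      have := Nat.even_mul_succ_self (M + 1)
      exact this.two_dvd)]
    simp only [ev]
    push_cast
    have : (M : ℤ) = α * q + c - 1 := by linarith
    rw [this]
    apply le_of_eq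
    ring
  · rw [hdiv _ (by
      have := Nat.even_mul_succ_self M
      simp only [Nat.add_sub_cancel]
      rw [mul_comm]
      exact this.two_dvd)]
    simp only [ev, Nat.add_sub_cancel]
    push_cast
    have : (M : ℤ) = α * q + c - 1 := by linarith
    rw [this]
    apply le_of_eq
    ring
  · rcases Nat.eq_zero_or_pos M with h0 | h0
    · subst h0
      simp only [ev]
      push_cast at hMz ⊢
      have h : (α : ℤ) * q + c = 1 := by linarith
      have : (α : ℤ) * α * (q : ℤ) ^ 2 + (2 * α * c - 3 * α) * q + (c * c - 3 * c + 2) =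
        (α * q + c - 1) * (α * q + c - 2) := by ring
      rw [this, h]
      norm_num
    · obtain ⟨N, rfl⟩ : ∃ N, M = N + 1 := ⟨M - 1, by omega⟩
      rw [hdiv _ (by
        have := Nat.even_mul_succ_self N
        have e1 : N + 1 + 1 - 1 = N + 1 := by omega
        have e2 : N + 1 + 1 - 2 = N := by omega
        rw [e1, e2, mul_comm]
        exact this.two_dvd)]
      have e1 : N + 1 + 1 - 1 = N + 1 := by omega
      have e2 : N + 1 + 1 - 2 = N := by omega
      rw [e1, e2]
      simp only [ev]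
      push_cast at hMz ⊢
      have : (N : ℤ) = α * q + c - 2 := by linarith
      rw [this]
      apply le_of_eq
      ring
  · simp [ev]

/-- The correction. -/
def corrC (α c α' c' : ℕ) (e r : ℕ) : ℕ :=
  if r ≤ 1 then 0 else
  if r = 2 then (if e = 0 then 1 else 0) else
  (if e = 0 then 1 + (if α = 0 ∧ c ≤ 1 then 0 else 1) + (if α' = 0 ∧ c' ≤ 1 then 0 else 1)
    else if e = 1 then 1 else 0)

/-- Coefficients of twice (a lower bound of) `crossOne S (α q + c) (α' q + c') e i`. -/
def crossC (S : List ℕ) (α c α' c' : ℕ) (e i : ℕ) : Co :=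
  if S.elem i then (0, 0, 0) else
  if rk S i ≤ 3 then (2 * (α * α' : ℤ), 2 * (α * c' + α' * c : ℤ),
    2 * (c * c' : ℤ) - 2 * (corrC α c α' c' e (rk S i) : ℤ)) else (0, 0, 0)

theorem cross_sound (S : List ℕ) (α c α' c' e e0 i q : ℕ) (he : e0 ≤ e) :
    ev (crossC S α c α' c' e0 i) q ≤
      2 * (crossOne S (α * q + c) (α' * q + c') e i : ℤ) := by
  have hL : (¬ 2 ≤ α * q + c) ∨ ¬ (α = 0 ∧ c ≤ 1) := by
    by_cases h : α = 0 ∧ c ≤ 1
    · left
      rw [h.1]
      omega
    · right; exact h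
  have hL' : (¬ 2 ≤ α' * q + c') ∨ ¬ (α' = 0 ∧ c' ≤ 1) := by
    by_cases h : α' = 0 ∧ c' ≤ 1
    · left
      rw [h.1]
      omega
    · right; exact h
  have key : ∀ (d D : ℕ), d ≤ D →
      ev (2 * (α * α' : ℤ), 2 * (α * c' + α' * c : ℤ), 2 * (c * c' : ℤ) - 2 * (D : ℤ)) q ≤
      2 * (((α * q + c) * (α' * q + c') - d : ℕ) : ℤ) := by
    intro d D hd
    have h1 : (((α * q + c) * (α' * q + c') : ℕ) : ℤ) - (d : ℤ) ≤
        (((α * q + c) * (α' * q + c') - d : ℕ) : ℤ) := by
      have := Nat.le_sub_iff_add_le (k := d) (m := 0) (n := (α * q + c) * (α' * q + c'))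
      omega
    have h2 : (d : ℤ) ≤ D := by exact_mod_cast hd
    simp only [ev]
    push_cast at h1 ⊢
    nlinarith [h1, h2]
  unfold crossC crossOne
  by_cases hS : S.elem i = true
  · rw [if_pos hS, if_pos hS]
    simp [ev]
  rw [if_neg hS, if_neg hS]
  by_cases h1 : rk S i ≤ 1
  · rw [if_pos (by omega), if_pos h1]
    have := key 0 (corrC α c α' c' e0 (rk S i)) (Nat.zero_le _)
    simpa using this
  rw [if_neg h1]
  by_cases h2 : rk S i = 2
  · rw [if_pos (by omega), if_pos h2]
    apply key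
    unfold corrC
    rw [if_neg h1, if_pos h2]
    by_cases h0 : e = 0
    · rw [if_pos h0, if_pos (by omega)]
    · rw [if_neg h0]; exact Nat.zero_le _
  rw [if_neg h2]
  by_cases h3 : rk S i = 3
  · rw [if_pos (by omega), if_pos h3]
    apply key
    unfold corrC
    rw [if_neg h1, if_neg h2]
    by_cases h0 : e = 0
    · rw [if_pos h0, if_pos (c := e0 = 0) (by omega)]
      rcases hL with hL | hL <;> rcases hL' with hL' | hL'
      · rw [if_neg hL, if_neg hL']; omega
      · rw [if_neg hL, if_neg (c := α' = 0 ∧ c' ≤ 1) hL']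
        split_ifs <;> omega
      · rw [if_neg hL', if_neg (c := α = 0 ∧ c ≤ 1) hL]
        split_ifs <;> omega
      · rw [if_neg (c := α = 0 ∧ c ≤ 1) hL, if_neg (c := α' = 0 ∧ c' ≤ 1) hL']
        split_ifs <;> omega
    · rw [if_neg h0]
      by_cases h1' : e = 1
      · rw [if_pos h1']
        split_ifs <;> omega
      · rw [if_neg h1']; exact Nat.zero_le _
  rw [if_neg h3, if_neg (by omega)]
  simp [ev]

/-- Coefficients for `crossAux`. -/
def crossAuxC (α c i : ℕ) : List ℕ → ℕ → List (ℕ × ℕ × ℕ) → Co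
  | _, _, [] => (0, 0, 0)
  | S, e, (l, α', c') :: t => addC (crossC (l :: S) α c α' c' e i)
      (crossAuxC α c i (l :: S) (e + (c' - 1)) t)

theorem crossAux_sound (α c i q : ℕ) (L : List (ℕ × ℕ × ℕ)) :
    ∀ (S : List ℕ) (e e0 : ℕ), e0 ≤ e →
    ev (crossAuxC α c i S e0 L) q ≤ 2 * (crossAux (α * q + c) i S e (inst q L) : ℤ) := by
  induction L with
  | nil => intro S e e0 _; simp [crossAuxC, inst, crossAux, ev]
  | cons p t ih =>
    obtain ⟨l, α', c'⟩ := p
    intro S e e0 he
    have e1 : inst q ((l, α', c') :: t) = (l, α' * q + c') :: inst q t := rfl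
    rw [e1, crossAux, crossAuxC, ev_addC]
    have h1 := cross_sound (l :: S) α c α' c' e e0 i q he
    have h2 := ih (l :: S) (e + (α' * q + c' - 1)) (e0 + (c' - 1)) (by omega)
    push_cast
    linarith

/-- Coefficients for `gcount`. -/
def gcountC : List (ℕ × ℕ × ℕ) → ℕ → Co
  | [], _ => (0, 0, 0)
  | (_, α, c) :: t, i => addC (addC (innerC α c i) (crossAuxC α c i [] 0 t)) (gcountC t i)

theorem gcount_sound (i q : ℕ) (L : List (ℕ × ℕ × ℕ)) (hL : ∀ p ∈ L, 1 ≤ p.2.2) :
    ev (gcountC L i) q ≤ 2 * (gcount (inst q L) i : ℤ) := by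
  induction L with
  | nil => simp [gcountC, inst, gcount, ev]
  | cons p t ih =>
    obtain ⟨l, α, c⟩ := p
    have e1 : inst q ((l, α, c) :: t) = (l, α * q + c) :: inst q t := rfl
    rw [e1, gcount, gcountC, ev_addC, ev_addC]
    have h1 := inner_sound α c i q (hL (l, α, c) (by simp))
    have h2 := crossAux_sound α c i q t [] 0 0 le_rfl
    have h3 := ih (fun p hp => hL p (by simp [hp]))
    push_cast
    linarith

/-- The check for one label `i = j + 1`. -/
def checkI (L : List (ℕ × ℕ × ℕ)) (K1 K0 S1 S0 : ℤ) (j : ℕ) : Bool :=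
  let g := gcountC L (j + 1)
  let m : ℤ := K0 - (j + 1)
  let d : ℤ := if j = 0 then 2 else 0
  decide (K1 * K1 ≤ 8 * S1 * K1 + g.1) &&
  decide (K1 * (2 * m + 5) ≤ 2 * (S1 * (4 * m + 2) + 4 * S0 * K1) + d * K1 + g.2.1) &&
  decide ((m + 3) * (m + 2) ≤ 2 * S0 * (4 * m + 2) + d * (K0 + 1) + g.2.2)

/-- The whole check. -/
def check (L : List (ℕ × ℕ × ℕ)) (K1 K0 S1 S0 n : ℕ) : Bool :=
  (!L.isEmpty) && L.all (fun p => decide (1 ≤ p.2.2)) && L.tail.all (fun p => decide (p.1 ≠ 0)) &&
  decide ((L.map fun p => p.2.1).sum = K1) && decide ((L.map fun p => p.2.2).sum = K0) &&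
  decide (n ≤ K0) && (List.range n).all (checkI L K1 K0 S1 S0)

theorem total_inst (q : ℕ) (L : List (ℕ × ℕ × ℕ)) :
    total (inst q L) = (L.map fun p => p.2.1).sum * q + (L.map fun p => p.2.2).sum := by
  induction L with
  | nil => simp [total, inst]
  | cons p t ih =>
    unfold total inst at ih ⊢
    simp only [List.map_cons, List.sum_cons]
    rw [ih]
    ring

theorem two_choose (m : ℕ) : (2 : ℤ) * ((m + 3).choose 2 : ℕ) = (m + 3) * (m + 2) := by
  rw [Nat.choose_two_right]
  have h : 2 ∣ (m + 3) * (m + 3 - 1) := by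
    have := Nat.even_mul_succ_self (m + 2)
    rw [mul_comm]
    exact this.two_dvd
  have := Nat.mul_div_cancel' h
  have h2 : (2 : ℤ) * (((m + 3) * (m + 3 - 1) / 2 : ℕ) : ℤ) = (((m + 3) * (m + 3 - 1) : ℕ) : ℤ) := by
    exact_mod_cast this
  rw [h2]
  have : m + 3 - 1 = m + 2 := by omega
  rw [this]
  push_cast
  ring

theorem check_sound (L : List (ℕ × ℕ × ℕ)) (K1 K0 S1 S0 n : ℕ)
    (h : check L K1 K0 S1 S0 n = true) (q : ℕ) :
    Good (inst q L) (K1 * q + K0) n (S1 * q + S0) := by
  unfold check at h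
  simp only [Bool.and_eq_true, decide_eq_true_eq, List.all_eq_true, Bool.not_eq_true',
    List.isEmpty_eq_false_iff, List.mem_range] at h
  obtain ⟨⟨⟨⟨⟨⟨hne, hc⟩, hl⟩, hK1⟩, hK0⟩, hn⟩, hI⟩ := h
  refine ⟨⟨?_, ?_, ?_⟩, ?_, ?_⟩
  · unfold inst
    simpa using hne
  · intro p hp
    unfold inst at hp
    rw [List.mem_map] at hp
    obtain ⟨x, hx, rfl⟩ := hp
    have := hc x hx
    show 1 ≤ x.2.1 * q + x.2.2
    omega
  · intro p hp
    unfold inst at hp
    rw [← List.map_tail, List.mem_map] at hp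
    obtain ⟨x, hx, rfl⟩ := hp
    exact hl x hx
  · rw [total_inst, hK1, hK0]
  · intro i hi1 hin
    obtain ⟨j, rfl⟩ : ∃ j, i = j + 1 := ⟨i - 1, by omega⟩
    have hj := hI j (by omega)
    unfold checkI at hj
    simp only [Bool.and_eq_true, decide_eq_true_eq] at hj
    obtain ⟨⟨hA, hB⟩, hC⟩ := hj
    have hg := gcount_sound (j + 1) q L hc
    set G : ℕ := gcount (inst q L) (j + 1) with hG
    unfold ev at hg
    obtain ⟨m, hm⟩ : ∃ m, K0 = m + (j + 1) := ⟨K0 - (j + 1), by omega⟩
    have hsub : K1 * q + K0 - (j + 1) = K1 * q + m := by omega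
    rw [hsub]
    have h2 := two_choose (K1 * q + m)
    have e4 : 4 * (K1 * q + m + 1) - 2 = 4 * (K1 * q + m) + 2 := by omega
    rw [e4]
    have hmz : (K0 : ℤ) - (j + 1) = m := by
      rw [hm]; push_cast; ring
    rw [hmz] at hB hC
    have hq : (0 : ℤ) ≤ (q : ℤ) := by positivity
    have hq2 : (0 : ℤ) ≤ (q : ℤ) ^ 2 := by positivity
    have hA' := mul_le_mul_of_nonneg_right hA hq2
    have hB' := mul_le_mul_of_nonneg_right hB hq
    have goal2 : (2 : ℤ) * ((K1 * q + m + 3).choose 2 : ℕ) ≤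
        2 * (((S1 * q + S0) * (4 * (K1 * q + m) + 2) +
          (if j + 1 = 1 then K1 * q + K0 + 1 else 0) + G : ℕ) : ℤ) := by
      rw [h2]
      by_cases hj0 : j = 0
      · rw [if_pos hj0] at hB' hC
        rw [if_pos (by omega)]
        push_cast
        nlinarith [hA', hB', hC, hg]
      · rw [if_neg hj0] at hB' hC
        rw [if_neg (by omega)]
        push_cast
        nlinarith [hA', hB', hC, hg]
    have := (mul_le_mul_iff_right₀ (show (0 : ℤ) < 2 by norm_num)).mp goal2
    exact_mod_cast this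

/-- The sporadic designs. -/
theorem spor_sound (k n s : ℕ) (h : check (spor k) 0 k 0 s n = true) :
    Good (inst 0 (spor k)) k n s := by
  have := check_sound (spor k) 0 k 0 s n h 0
  simpa using this

theorem DESIGN : DESIGN_stmt := by
  refine ⟨?_, ?_, ?_, ?_, ?_, ?_⟩
  · intro k h4 h15
    apply spor_sound
    interval_cases k <;> decide +kernel
  · apply spor_sound
    decide +kernel
  · intro q h2 h8
    apply spor_sound
    interval_cases q <;> decide +kernel
  · intro n q h1 h10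
    have key : ∀ n, 1 ≤ n → n ≤ 10 → check (fam n) 12 (17 + n) 1 2 n = true := by
      intro n h1 h10
      interval_cases n <;> decide +kernel
    have := check_sound (fam n) 12 (17 + n) 1 2 n (key n h1 h10) q
    have e1 : 12 * q + (17 + n) = 12 * q + 17 + n := by ring
    have e2 : 1 * q + 2 = q + 2 := by ring
    rw [e1, e2] at this
    exact this
  · intro q
    have := check_sound (fam 11) 12 40 1 3 11 (by decide +kernel) q
    have e2 : 1 * q + 3 = q + 3 := by ring
    rw [e2] at this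
    exact this
  · intro q
    have := check_sound (fam 12) 12 137 1 11 12 (by decide +kernel) q
    have e2 : 1 * q + 11 = q + 11 := by ring
    rw [e2] at this
    exact this

end Pool.Agent.Helper34.DS
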